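import Mathlib
import Pool.Agent.Lib.LHad.LocalT

namespace Pool.Agent.Results.MP_7b68b9_co.LocalLinear

/-- Every finite nonempty graph with no `K_{t+1}` minor has a vertex whose closed neighbourhood
is `10^100 t`-colourable, and `6t`-colourable if `t` is large. -/
theorem result :
    ∃ t₀ : ℕ, ∀ t : ℕ, 1 ≤ t →
      ∀ (V : Type) [Fintype V] [Nonempty V] (G : SimpleGraph V),
        (¬ ∃ f : Fin (t + 1) → Set V,
          (∀ i, (G.induce (f i)).Connected) ∧
          (∀ i j, i ≠ j → Disjoint (f i) (f j)) ∧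
          (∀ i j, i ≠ j → ∃ x ∈ f i, ∃ y ∈ f j, G.Adj x y)) →
        ∃ v : V, (G.induce (insert v (G.neighborSet v))).Colorable
          ((if t₀ ≤ t then 6 else 10 ^ 100) * t) := by
  obtain ⟨t₀, h0⟩ := Pool.Agent.LHad.localLarge
  refine ⟨t₀, ?_⟩
  intro t ht V _ _ G hG
  by_cases hc : t₀ ≤ t
  · rw [if_pos hc]
    exact h0 t hc V G hG
  · rw [if_neg hc]
    exact Pool.Agent.LHad.localAll t ht V G hG

end Pool.Agent.Results.MP_7b68b9_co.LocalLinear
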