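import Mathlib
import Pool.Agent.Lib.LHad.Small

namespace Pool.Agent.Results.MP_7b68b9_co.SmallGraphs

/-- Linear Hadwiger for small graphs: a graph on at most `K t` vertices with no `K_t` minor is
`5t`-colourable as soon as `t ≥ exp(2·10^6·K·(ln(20K))²)`. -/
theorem result :
    ∀ (K t : ℕ) (V : Type) [Fintype V] (G : SimpleGraph V), 1 ≤ K →
      Real.exp (2 * 10 ^ 6 * K * (Real.log (20 * K)) ^ 2) ≤ t →
      Fintype.card V ≤ K * t →
      (¬ ∃ f : Fin t → Set V,
        (∀ i, (G.induce (f i)).Connected) ∧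
        (∀ i j, i ≠ j → Disjoint (f i) (f j)) ∧
        (∀ i j, i ≠ j → ∃ x ∈ f i, ∃ y ∈ f j, G.Adj x y)) →
      G.Colorable (5 * t) := by
  intro K t V _ G hK ht hn hG
  exact Pool.Agent.LHad.small G K t hK ht hn hG

end Pool.Agent.Results.MP_7b68b9_co.SmallGraphs
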